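import Pool.Agent.H82.NTC.Pot

/-!
# Board `ntc`: row PMB, the potential of the women for the men of kind `B`
-/

set_option autoImplicit false

namespace Pool.NTC

open Pool.NET

theorem pmb_col (S c d : ℤ) (hS : 0 < S) :
    (S * c = S * d) ∨ S * c + S ≤ S * d ∨ S * d + S ≤ S * c := by
  rcases lt_trichotomy c d with h | h | h
  · right; left; nlinarith
  · left; rw [h]
  · right; right; nlinarith

theorem pmb_thm : PMk Ke.B := by
  intro p e g e' g' h u hp hp' hr v w s t hs hs' ht ht' hlt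
  obtain ⟨q0, gq, gW, We, eM, MS⟩ := hp
  obtain ⟨-, gq', gW', We', eM', -⟩ := hp'
  obtain ⟨w1, k'⟩ := w
  unfold Rel at hr
  have hS : 0 < p.S := by omega
  have hc := pmb_col p.S w1.1 v.1 hS
  cases k' <;> simp only [prM, fx, lvM, sgM] at hlt ⊢ <;>
    (generalize p.S * w1.1 = X at hlt hc ⊢
     generalize p.S * v.1 = Y at hlt hc ⊢
     rcases abs_cases (4 * (Y - e - p.q) + 1 - 4 * (Y - e + t)) with ⟨h1, h2⟩ | ⟨h1, h2⟩
     · omega
     · rw [h1, abs_lt] at hlt
       omega)

end Pool.NTC
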